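import Pool.Agent.Lib_helper27.ABIF.Main

/-!
# MP_675993_lc: above every oracle there is an oracle with an infinite polynomial hierarchy,
relative to which Turing- and many-one completeness for `NP` coincide, and relative to which every
cryptographic game that was hard is still hard

Let `R` be an ARBITRARY oracle and let `G 0, G 1, ...` be ARBITRARY games between a challenger and
an adversary, with parameters `t 0, t 1, ...` (sizes of adversaries; the challenger has at most
`t j` random bits, at most `2 ^ T` of the games have `t j ≤ T`).  There is an oracle `O` that
contains `R` (the string `x` is coded as `00x` or `01x0`) such that relative to `O`:

* the polynomial hierarchy is infinite;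
* every Turing complete language for `NP` is many-one complete: the negated form of Q1;
* for all but finitely many `j` and every real `v`: if oracle circuits of size `t ^ κ(t)` with
  oracle `R`, `t = t j`, `κ(t) = (log log t) ^ 4`, win the game `G j` with probability at most `v`,
  then oracle circuits of size `t` with oracle `O` win it with probability at most `v + 1 / t`.

So Q1 has no relativizing proof from the hypothesis that the polynomial hierarchy is infinite
together with any collection of hypotheses on the hardness of games for nonuniform adversaries
(one-way functions or permutations, trapdoor permutations, collision resistance, obfuscation with
arbitrary challengers, average-case hardness of any language, ...), unless these are false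
relative to every oracle.

(`Pool.Agent.ABI.main_ABI` has more: a language `V` in `NP`, with complement outside `NP`, such that
every language in `NP` to which `V` is Turing reducible is many-one complete.)

Idea.  A slot is a string `r`, its state is a set `S_r` of labels of the same length (positions
`(r, l)` of the oracle), `V = {r : S_r ≠ ∅}`.  The construction has epochs; the epoch `i` has
`2 ^ i` stages.  At the beginning of an epoch all slots of its lengths become free, and their state
is a random state, whose law is a mixture of random subsets of random subsets.  A stage fixes most
slots by a random restriction; by a switching lemma, on most of the others the computation of a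
Turing reduction `M` of `V` to `C` does not depend on the other slots, if the state is empty or a
singleton; if it is wrong there, `M` is made wrong for ever; otherwise one fixed query of `M` is
equivalent to `S_r ≠ ∅` for all `S_r` inside a large set of labels.  These queries are the values of
the tables of reductions to `C`; every entry of a table takes a random good slot, so that a table
can be simulated by a circuit.  Then the state of the slot is bound to the set of (randomly coded)
accepting computations of the source machine.  For all games at once the invariant says: the
probability that a small circuit wins with probability more than `v + η` is doubly exponentially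
small.  It survives the binding of slots by a replacement lemma (the new true labels are hidden in
large random blocks; each is guessed with small probability).  At the end of an epoch one free slot
is used for the diagonalization against a level of the hierarchy (Hastad's depth hierarchy
theorem): the oracle remains good for the games for ALL states of this slot with hidden labels.

Definitions: `Lib_helper74/CKF/Basic.lean` (programs, `P`, `NP`, reductions),
`Lib_helper74/PHS/Defs.lean` (levels `InSig` of the hierarchy), `Lib_helper27/ABO/Notions.lean`
(circuits, games).
-/

set_option autoImplicit false

namespace Pool.Agent.Results.MP_675993_lc.AboveEveryOracleInfinitePH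

open Pool.Agent.CK Pool.Agent.PHS Pool.Agent.ABO

theorem result (R : Lang) (G : ℕ → Game) (t : ℕ → ℕ) (hs : ∀ j, (G j).s ≤ t j)
    (hfin : ∀ T, {j | t j ≤ T}.Finite) (hcnt : ∀ T, {j | t j ≤ T}.ncard ≤ 2 ^ T) :
    ∃ O : Lang,
      (∀ x : List Bool, O (if x.length % 2 = 1 then false :: false :: x
        else false :: true :: (x ++ [false])) = R x) ∧
      (∀ k, ∃ L, InSig O (k + 1) L ∧ ¬ InSig O k L) ∧
      (∀ C, TuringComplete O C → ManyOneComplete O C) ∧
      {j | ¬ ∀ v : ℝ, Hard R (G j) (t j ^ (Nat.log 2 (Nat.log 2 (t j))) ^ 4) v →
        Hard O (G j) (t j) (v + 1 / t j)}.Finite := by
  obtain ⟨O, V, h1, h2, -, -, -, -, h7, h8⟩ :=
    Pool.Agent.ABI.main_ABI Pool.Agent.HDH.dh R G t hs hfin hcnt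
  exact ⟨O, h1, h2, h7, h8⟩

end Pool.Agent.Results.MP_675993_lc.AboveEveryOracleInfinitePH
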