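import Pool.Agent.Lib_helper40.DET2.F

/-!
# MP_675993_lc: if Turing completeness and many-one completeness for `NP` are the same, then short
questions to `NP` are enough for `E^NP`

If every language that is `≤_T^P`-complete for `NP` is complete for `NP` under polynomial time
Turing reductions with a constant number of rounds of nonadaptive queries (in particular: if it is
`≤_tt^P`-complete, or `≤_m^P`-complete, the negated form of Q1), then for every `ε > 0` the class
`E^NP` is the class of all languages that are decided in time `2 ^ (O(n))` with questions of length
`O(2 ^ (ε n))` to one fixed language `B` in `NP` (the definition of `E^NP` allows questions of length
`2 ^ (O(n))`).  The theorem holds relative to every oracle `O`; the oracle `O = fun _ => false` gives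
the classical statement.  One inclusion is trivial (`inENP_of_short` in
`Lib_helper80/SHQ/Fin.lean`).

Questions of length `O(2 ^ (ε n))` can be answered by exhaustive search, so `E^NP` is then contained
in `DTIME(2 ^ (2 ^ (ε n)))` for every `ε > 0` (`dtime_fr` in `Lib_helper57/DET/D5.lean` proves this
also for reductions with `n ^ (o(1))` rounds; relative to oracles nothing smaller is possible, see
`main_UE` in `Lib_helper23/CKT/Main.lean`).  So Q1 is true if `E^NP` is not contained in
`DTIME(2 ^ (2 ^ (ε n)))` for some `ε > 0`, a worst-case hypothesis which follows from each of these:
`NP` does not have p-measure `0` (Lutz, Mayordomo 1994); some language in `NP` is
`DTIME(2 ^ (n ^ δ))`-bi-immune (Pavan, Selman 2004: then its set of tally strings needs time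
`2 ^ (n ^ δ)`); the accepting computations of some machine of Mandal, Pavan and Vinodchandran (2014)
are hard to find (the least ones are computed in `E^NP`).

Proof idea.  Let `R` be a verifier for tally inputs `0^m` whose least witnesses determine `L`: the
value `L x` can be read in the least witness of `0^m`, `m < 2 ^ (|x| + 1)` the number of `x` (the
least accepting transcript of a machine with an `NP` oracle is the right one).  Replace `R` by the
nested verifier: a witness for `0^m` is a sequence of blocks for `0, ..., m`, with a fixed number of
bits for each block, and each block is a witness of `R` or `none`.  So the least witness of `0^m`
consists of the first bits of one real number `ρ`, and the question whether `0^m` has a witness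
`< u` is the question whether `ρ < u / 2 ^ (ℓ m)`.  Call a list `ws` correct if its `m`-th entry is
the least witness of `0^m`, for all `m < |ws|`.  Let `K` be `≤_m^P`-complete, and for a constant
`r > 1 / ε` let `C` be the set of all `(1, 0^m, u)` such that `0^m` has a witness smaller than `u`,
and all `(2, x, ws)` with `|ws| ≥ |x| ^ r` such that `ws` is not correct (some entry is not a
witness, or there is a smaller one) or `x ∈ K`.  `C` is `≤_T^P`-complete for `NP`: find the correct
list by binary search, then ask `(2, x, ws)`.  So `K` reduces to `C` with a constant number of
rounds of queries.

The least witness of `0^m` is found by binary search.  In each step a witness `< u` of `0^m` is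
searched for, as follows.  For a batch of questions to `K` all rounds of the reductions to `C` are
simulated.  In each round all comparisons that occur (in the queries of type 1 and in the lists of
the queries of type 2) compare the same number `ρ` with thresholds, so their answers are determined
by the number of true comparisons: polynomially many (in `m`) possibilities for each round, and for
the constant number of rounds together; all are tried.  For the right numbers there are two cases.
If a query `(2, x, ws)` with `ws` correct and `|ws| > m` occurs, then its `m`-th entry is the least
witness of `0^m`.  Otherwise `|x| ^ r ≤ |ws| ≤ m` for all queries `(2, x, ws)` with `ws` correct, so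
that `x ∈ K` is a short question, of length `m ^ (1 / r)`, and with such questions all queries can
be answered.  So the true vector of answers for the batch is among polynomially many candidates.

With candidate vectors for batches a witness is found by a deterministic search in polynomial time
(`TT/Search.lean`), which replaces random weights.  Witnesses `y` of length `N` are hashed by the
values at `a < p` of a polynomial `P` over `F_p`, determined by `y` and a seed, and of its
derivative; `p` is a prime polynomial in `N`.  The batch asks for all triples `(a, b, b')` whether
some witness that satisfies the clauses found before has `P(a) = b`, `P'(a) = b'`.  If more than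
`p ^ 4` witnesses satisfy them, then a fraction `1 / (128 (N + 2) ^ 2)` of the triples has the
answer yes (a multiplicity code is a good condenser, `expansion` in `TT/A76.lean`), so a greedy
choice gives polynomially many triples which meet all candidate vectors with so many ones: a new
clause.  After the clauses for all seeds few witnesses are left, so at the first moment when at most
`p ^ 4` are left there is at least one, and one of them is isolated by its value at one point modulo
another prime and read off bit by bit.

The short questions are written with padding, so that for inputs of length `n` all of them have the
same length `p(n) ≤ a 2 ^ (ε n)`.  The library gives a program for each oracle `Z` that answers the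
questions of length `p(n)` as `B` does; a category argument gives one program for all oracles that
agree with `B` on `p(n)` and are cut off anywhere above (`uniform`, `short_fixed` in
`Lib_helper80/SHQ`).

Definitions: machines, `Halts`, `Accepts`, `InNP`, `TuringComplete` are in
`Lib_helper74/CKF/Defs.lean`, `InENP` is in `Lib_helper74/NF/ClassesE.lean`, `code` is in
`Lib_helper74/KY/ClassesB.lean`, `ConstRoundsComplete` is in `Lib_helper57/DET2/ClassesC.lean`,
`cut` and `InEShort` are in `Lib_helper80/SHQ/ClassesS.lean`.  The special cases are
`constRoundsComplete_of_tt` and `constRoundsComplete_of_m` in `Lib_helper57/DET2/Cr.lean`.
-/

set_option autoImplicit false

namespace Pool.Agent.Results.MP_675993_lc.CollapseToShortQueries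

open Pool.Agent.CK

theorem result (O : Lang) (hneg : ∀ C, TuringComplete O C → ConstRoundsComplete O C) :
    ∃ B, InNP O B ∧ ∀ ε : ℝ, 0 < ε → ∀ L, InENP O L ↔ InEShort O B ε L :=
  Pool.Agent.DET2.short_cr hneg

end Pool.Agent.Results.MP_675993_lc.CollapseToShortQueries
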