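import Pool.Agent.Lib_helper81.CTT.Main
import Pool.Agent.Lib_helper64.CTT.Special

/-!
# MP_675993_lc: Turing completeness and truth-table completeness

If every language that is `≤_T^P`-complete for `NP` is complete for `NP` under polynomial time
truth-table reductions (in particular: if it is `≤_m^P`-complete, the negated form of Q1), then
every language `L` of `E^NP` is easy for very many input lengths, for every `ε > 0`: every interval
`[n0, 2 ^ (ε n0)]` with `n0` large contains a number `n` such that `L` is decided on the inputs of
length at most `n` in time `2 ^ (O(n))` with an advice of length at most `2 ^ (ε n)`.  In particular
`E^NP ⊆ i.o.-E / 2 ^ (ε n)`.  The theorem holds relative to every oracle `O`; the oracle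
`O = fun _ => false` gives the classical statement.

Proof idea.  Let `R` be a verifier for tally inputs `0^m` whose least witnesses determine `L`: the
value `L x` can be read in the least witness of `0^m`, `m < 2 ^ (|x| + 1)` the number of `x` (the
least accepting transcript of a machine with an `NP` oracle is the right one).  Replace `R` by the
nested verifier: a witness for `0^m` is a sequence of blocks for `0, ..., m`, with a fixed number of
bits for each block, and each block is a witness of `R` or `none`.  So the least witness of `0^m`
consists of the first bits of one real number `ρ`, and the question whether `0^m` has a witness
`< u` is the question whether `ρ < u / 2 ^ (ℓ m)`.  Call a list `ws` correct if its `m`-th entry is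
the least witness of `0^m`, for all `m < |ws|`.  Let `K` be `≤_m^P`-complete, and for a constant
`r` let `C_r` be the set of all `(1, 0^m, u)` such that `0^m` has a witness smaller than `u`, and
all `(2, x, ws)` with `|ws| ≥ |x| ^ r` such that `ws` is not correct (some entry is not a witness,
or there is a smaller one) or `x ∈ K`.  `C_r` is `≤_T^P`-complete for `NP`: find the correct list by
binary search, then ask `(2, x, ws)`.

(1) Keys.  By hypothesis `K ≤_tt^P C_r` for `r = 3 (c + 1)`, where `1 / c < ε`.  If one of the
queries of `z` is `(2, x, ws)` with `ws` correct and `|ws| ≥ 2 (|z| + 2) ^ c`, then `z` is a key: it
is an advice from which `L x` can be computed for all `x` with `2 ^ |x| ≤ (|z| + 2) ^ c`, in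
time polynomial in `|z|`.

(2) No keys.  Suppose that there are no keys `z` with `m0 ≤ |z| ≤ 2 ^ m0`.  Then every instance `y`
of `K` with `|y| ≤ 2 ^ m0` is decided in time polynomial in `2 ^ m0` if the correct list `T` of
length polynomial in `|y|` is given: a query `(1, 0^m, u)` is decided by `T`; a query `(2, x, ws)`
with `ws` not correct (this is seen by comparison with `T`) is answered yes; otherwise
`|x| ^ r ≤ |ws| < 2 (|y| + 2) ^ c`, so `|x| + 2 ≤ √(|y| + 2)`, and the question is whether
`x ∈ K`: recursion.  Instances shorter than `m0` are decided by exhaustive search.

(3) The least witness of `0^n` is found from the correct list `T` of length `n`, by binary search.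
Take `r'` so large that (2) decides an instance `x` with `|x| ^ r' ≤ n` from `T`, let `U ≤ 2 ^ (ℓ n)`,
and consider a list of `NP` questions about the witnesses `< U` of `0^n` and the queries to `C_r'`
of their truth-table reductions.  If the `n`-th entry of a query `(2, x, ws)` with `n < |ws|` is
a witness `< U`, then a witness is found.  Otherwise, if there is any witness `< U`, the answer to
each query `(2, x, ws)` with `n < |ws|` is yes (`ws` is not correct); a query `(2, x, ws)` with
`|ws| ≤ n` is decided by `T` and (2); and all queries `(1, 0^m, u)` compare the same number `ρ`
with thresholds.  So there are polynomially many candidates for the vector of the answers to the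
given questions, one for each position of `ρ`, and one of them is correct if there is a witness
`< U`.

From such candidates a witness is found in polynomial time.  Let `p` be a prime of size
polynomial in the length `N` of the witnesses.  A string is hashed by the values of two
polynomials at points of the field with `p` elements, one polynomial is the derivative of the other
one (an unbalanced expander, as in the work of Guruswami, Umans and Vadhan and of Kalev and
Ta-Shma): more than `p ^ 4` strings have at least a polynomial fraction of all `p ^ 3` pairs of a
point and of a value.  Ask for all these pairs whether a witness has the pair.  A set of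
polynomially many pairs meets all candidates with many ones; the condition that the witness
has one of these pairs keeps at least one witness, as long as there are more than `p ^ 4`
witnesses, and for all seeds of the hashing together these conditions leave at most `p ^ 4` strings.
So the first of these sets of witnesses that has at most `p ^ 4` elements is not empty.  A
fingerprint of one of its elements (the value of a polynomial modulo another prime) isolates it, and
the candidates for the answers to the questions for its bits contain it.  All candidates are
verified, and all moduli in a range are tried.

(4) So if there are no keys `z` with `m0 ≤ |z| ≤ 2 ^ m0`, then all correct lists up to the length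
`2 (2 ^ m0 + 2) ^ c + 2` are computed one after the other, in time polynomial in `2 ^ m0`, and no
advice is needed for the input length `c m0`.  With `m0` about `2 ^ (n0 / c)` both cases give a
length `n` in `[n0, 2 ^ (ε n0)]`.

Definitions: machines, `Halts`, `Accepts`, `InNP`, `TuringComplete` are in
`Lib_helper74/CKF/Defs.lean`, `InENP` is in `Lib_helper74/NF/ClassesE.lean`, `code` is in
`Lib_helper74/KY/ClassesB.lean`, `TTComplete` is in `Lib_helper74/KY/ClassesT.lean`,
`InOftenEadvice` is in `Lib_helper74/KY/ClassesO.lean`.  The special cases are the theorems
`ttComplete_of_fewAlt`, `ttComplete_of_m`, `ttComplete_of_btt` in
`Lib_helper64/CTT/Special.lean`.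
-/

set_option autoImplicit false

namespace Pool.Agent.Results.MP_675993_lc.CollapseToTruthTable

open Pool.Agent.CK

theorem result (O : Lang) (hneg : ∀ C, TuringComplete O C → TTComplete O C)
    (L : Lang) (hL : InENP O L) (ε : ℝ) (hε : 0 < ε) : InOftenEadvice O ε L :=
  Pool.Agent.CKP.often_ttComplete hneg ε L hε hL

end Pool.Agent.Results.MP_675993_lc.CollapseToTruthTable
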