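import Pool.Agent.Lib_helper57.PX.IsoR

/-!
# MP_675993_lc: an affine oracle with trapdoor permutations relative to which all Turing complete
languages for `NP` are many-one complete, and isomorphic

Let `pt u` code a point of a space `GF(2^k)^n`, `n ≤ |u|`, and a linear functional of `GF(2^k)` over
`GF(2)` (any coding). There is an oracle `O` with the following properties.

* `O` contains its own multilinear extensions: `O (11u)` is the value of the functional at the value
  of the multilinear extension of `O`, restricted to `{0,1}^n`, at the point `pt u`. So `O` is an
  affine oracle in the sense of Aydinlioglu and Bach (and it contains the low-degree extensions of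
  Aaronson and Wigderson over the fields of characteristic two).
* There are trapdoor permutations `G`, `K`, `H` at all lengths, secure against nonuniform
  adversaries of size `T n = 2 ^ (n / (log n) ^ 9)` (`TrapdoorPermutations`, `Secure`).
* All Turing complete languages for `NP` are many-one complete (the negated form of Q1).
* Any two Turing complete languages for `NP` are isomorphic by a bijection that is computable in
  polynomial time in both directions.

So Q1 has no relativizing and no affinely relativizing (algebrizing) proof from the existence of
trapdoor permutations of this security or from `P ≠ NP`, and the negated form of Q1 may hold in the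
strongest possible form: there is only one Turing complete language for `NP` up to isomorphism.
(`Pool.Agent.TD.TF.main_mlx` has more: closure under any linear scheme, a complete language in
`UP ∩ coUP`, the class `NP` enlarged by `PSPACE` and by given local operators, nonuniform
reductions.)

Idea.  The oracle `O` is a linear oracle `Lam T A`: the answer to a question is the parity of a
language `A` on a finite set of shorter strings; `T` is made of the scheme, so that `O` is closed.
The language `A` is a masked form of a virtual oracle `W`: `A (1w)` is a pointer `P w` and, of the
two bits `A (00w)`, `A (01w)`, the one selected by the pointer is `W w` and the other is a random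
junk bit.  The pointers are generic: a parity of answers in which the junk cancels has few real
bits.  So the questions to `O` can be simulated by few questions to `W` and random coins (mask
stages, one for each interval of lengths).  The virtual oracle contains the secrets and tables of
injective reductions and their inverses; the entries of a table are taken from a hard-core
distribution without large atoms, so that it is injective and questions to the inverse table do not
help (table stages).  All lengths are protected at the same time.

The definitions are in `Lib_helper57/PX` (`Mach`, `InP`, `InNP`, `InFP`, `Join`, `Red`, `TDP`, `Ml`).
-/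

set_option autoImplicit false

namespace Pool.Agent.Results.MP_675993_lc.IsomorphicCompleteSetsAffine

open Pool.Agent.PX

theorem result
    (pt : List Bool → (n : ℕ) × (k : ℕ) × (Fin n → GaloisField 2 k) ×
      (GaloisField 2 k →ₗ[ZMod 2] ZMod 2)) (hpt : ∀ u, (pt u).1 ≤ u.length) :
    ∃ (O : Lang) (G K H : List Bool → List Bool),
      (∀ u, O (true :: true :: u) = true ↔ (pt u).2.2.2
        (mlx (fun b : Fin (pt u).1 → Bool => O (List.ofFn b)) (pt u).2.2.1) = 1) ∧
      TrapdoorPermutations O G K H ∧
      Secure O G K (fun n => 2 ^ (n / (Nat.log 2 n) ^ 9)) ∧
      (∀ C, TuringComplete O C → ManyOneComplete O C) ∧
      ∀ C C', TuringComplete O C → TuringComplete O C' → PIso O C C' := by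
  obtain ⟨O, G, K, H, h1, h2, h3, h4, h5⟩ := isoOld pt hpt
  refine ⟨O, G, K, H, fun u => by rw [h1 u]; exact decide_eq_true_iff, (tdp_iff' O G K H).1 h2,
    (secure_iff' O G K _).1 h3, fun C hC => ?_, fun C C' hC hC' => ?_⟩
  · exact (manyOneComplete_iff O C).1 (h4 C ((turingComplete_iff O C).2 hC))
  · exact (pIso_iff O C C').1
      (h5 C C' ((turingComplete_iff O C).2 hC) ((turingComplete_iff O C').2 hC'))

end Pool.Agent.Results.MP_675993_lc.IsomorphicCompleteSetsAffine
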